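import Pool.Agent.TH728.ZC.Ind
import Pool.Agent.W858.SF.Comp
import Pool.Agent.TH377.Sup.Good
import Pool.Agent.TH377.Dyn.Dens

/-!
# Number fields: the degrees of the points of almost all superelliptic curves
-/

set_option autoImplicit false

namespace Pool.Agent.TH728.ZC

open Polynomial WithZero NumberField IsDedekindDomain Module
open Pool.Agent.W858.SF Pool.Agent.TH377.Sup
open Pool.Agent.TH120.Sec (DZ)

universe u v w

lemma val_eq_of {L : Type u} [Field L] [NumberField L] (v : HeightOneSpectrum (𝓞 L)) (b : 𝓞 L)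
    (hb : b ∈ v.asIdeal) (hb' : b ∉ v.asIdeal ^ 2) :
    v.valuation L (algebraMap (𝓞 L) L b) = exp (-1) := by
  rw [HeightOneSpectrum.valuation_of_algebraMap]
  have h1 : v.intValuation b ≤ exp (-1) := by
    have := (v.intValuation_le_pow_iff_mem b 1).2 (by rwa [pow_one])
    exact_mod_cast this
  have h2 : ¬ v.intValuation b ≤ exp (-2) := by
    intro h
    apply hb'
    refine (v.intValuation_le_pow_iff_mem b 2).1 ?_
    exact_mod_cast h
  refine le_antisymm h1 ?_
  by_contra h3
  apply h2
  rw [not_le] at h3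
  by_cases h0 : v.intValuation b = 0
  · rw [h0]
    exact zero_le
  · rw [← exp_log h0, exp_lt_exp] at h3
    rw [← exp_log h0, exp_le_exp]
    omega

/-- the conditions on `c` at the prime `v` -/
def AtPrime {K : Type u} [Field K] [NumberField K] (v : HeightOneSpectrum (𝓞 K)) {d : ℕ}
    (c : Fin (d + 2) → 𝓞 K) : Prop :=
  c 0 ∈ v.asIdeal ∧ c 0 ∉ v.asIdeal ^ 2 ∧ IrrMod v d fun i => c i.succ

/-- degrees of points over a field between `K` and its completion -/
theorem dvd_of_atPrime {K : Type u} [Field K] [NumberField K] (v : HeightOneSpectrum (𝓞 K)) {d : ℕ}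
    (c : Fin (d + 2) → 𝓞 K) (hc : AtPrime v c) {k : Type v} [Field k] [CharZero k] (P : K →+* k)
    (ψ : k →+* v.adicCompletion K) (hP : ψ.comp P = algebraMap K (v.adicCompletion K)) :
    Irreducible ((pol fun i : Fin (d + 1) => (c i.succ : K)).map P) ∧ ∀ (n : ℕ), 0 < n →
      ∀ (L : Type w) [Field L] [Algebra k L] [FiniteDimensional k L],
      ((∃ x y : L, algebraMap k L (P (c 0)) * y ^ n =
          aeval x ((pol fun i : Fin (d + 1) => (c i.succ : K)).map P)) ∨
        ∃ r : L, algebraMap k L (P (c 0)) * r ^ Nat.gcd n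
          ((pol fun i : Fin (d + 1) => (c i.succ : K)).map P).natDegree =
          algebraMap k L ((pol fun i : Fin (d + 1) => (c i.succ : K)).map P).leadingCoeff) →
      Nat.gcd n ((pol fun i : Fin (d + 1) => (c i.succ : K)).map P).natDegree ∣ finrank k L := by
  classical
  obtain ⟨hy, hy', hirr⟩ := hc
  have hmax : v.asIdeal.IsMaximal := v.isMaximal
  let _ := Ideal.Quotient.field v.asIdeal
  obtain ⟨θ, hθ, hθr⟩ := exists_residue_map v
  have hθinj : Function.Injective θ := θ.injective
  have hint : ∀ r : 𝓞 K, vv v (algebraMap K (v.adicCompletion K) (r : K)) ≤ 1 := fun r => by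
    rw [vv_algebraMap]
    exact v.valuation_le_one r
  let cB : Fin (d + 1) → (vv v).valuationSubring := fun i =>
    ⟨algebraMap K (v.adicCompletion K) (c i.succ : K), hint _⟩
  have hres : ∀ i, IsLocalRing.residue _ (cB i) = θ (Ideal.Quotient.mk v.asIdeal (c i.succ)) := by
    intro i
    refine hθr _ _ ?_
    change vv v (algebraMap K (v.adicCompletion K) (c i.succ : K) -
      algebraMap K (v.adicCompletion K) (algebraMap (𝓞 K) K (c i.succ))) < 1
    rw [sub_self, map_zero]
    exact zero_lt_one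
  have hlast : IsUnit (cB (Fin.last d)) := by
    have h5 : cB (Fin.last d) ∉ IsLocalRing.maximalIdeal (vv v).valuationSubring := by
      intro h6
      have h7 : IsLocalRing.residue _ (cB (Fin.last d)) = 0 :=
        (IsLocalRing.residue_eq_zero_iff _).2 h6
      rw [hres, map_eq_zero_iff _ hθinj, Ideal.Quotient.eq_zero_iff_mem] at h7
      exact hirr.1 h7
    by_contra h6
    exact h5 ((IsLocalRing.mem_maximalIdeal _).2 h6)
  refine dvd_of_embedding (vv v) ψ _ (pol cB) ?_ ?_ ?_ _ ?_
  · rw [pol_map, Polynomial.map_map, hP, pol_map]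
    rfl
  · rw [pol_leadingCoeff _ hlast.ne_zero]
    exact hlast
  · have h4 : (pol cB).map (IsLocalRing.residue (vv v).valuationSubring) =
        (pol fun i : Fin (d + 1) => Ideal.Quotient.mk v.asIdeal (c i.succ)).map θ := by
      rw [pol_map, pol_map]
      simp only [hres]
    rw [h4]
    exact (MulEquiv.irreducible_iff (Polynomial.mapEquiv
      (RingEquiv.ofBijective θ ⟨hθinj, hθ⟩)).toMulEquiv).2 hirr.2
  · rw [← RingHom.comp_apply, hP, vv_algebraMap]
    exact val_eq_of v (c 0) hy hy'

/-- almost all vectors satisfy the conditions at some prime -/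
theorem dz_atPrime (K : Type u) [Field K] [NumberField K] (d : ℕ) (hd : 2 ≤ d) :
    DZ (d + 2) {c : Fin (d + 2) → 𝓞 K | ¬ ∃ v : HeightOneSpectrum (𝓞 K), AtPrime v c} := by
  refine Pool.Agent.TH377.Dyn.DZ.mono
    (Pool.Agent.TH377.Dyn.dz_prime K d hd (1 : 𝓞 K) one_ne_zero) ?_
  rintro c hc ⟨v, _, hv⟩
  exact hc ⟨v, hv⟩

end Pool.Agent.TH728.ZC
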