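import Pool.Agent.TH728.ZC.Pl
import Pool.Agent.TH728.ZC.Fam
import Pool.Agent.W858.SF.Comp

/-!
# The degrees of the points of curves over a number field and over its completions
-/

set_option autoImplicit false

namespace Pool.Agent.TH728.ZC

open Polynomial IsDedekindDomain NumberField Module Pool.Agent.W858.SF

universe u v w x

/-- the local theorem over any fraction field of characteristic zero -/
theorem curve_dvd (A : Type u) (k : Type v) [CommRing A] [IsDedekindDomain A] [Field k] [CharZero k]
    [Algebra A k] [IsFractionRing A k] (p : HeightOneSpectrum A) [Finite (A ⧸ p.asIdeal)] (m : ℕ)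
    (F : A[X]) (hlc : F.leadingCoeff ∉ p.asIdeal)
    (hcop : ∀ n : ℕ, ¬ m ∣ n → IsCoprime (X ^ (Nat.card (A ⧸ p.asIdeal) ^ n) - X)
      (F.map (Ideal.Quotient.mk p.asIdeal)))
    (hd : m ∣ F.natDegree) (b : A) (hb : b ∈ p.asIdeal) (hb2 : b ∉ p.asIdeal ^ 2)
    (n : ℕ) (hn0 : 0 < n) (hn : m ∣ n) (L : Type w) [Field L] [Algebra k L] [FiniteDimensional k L]
    (h : (∃ x y : L, algebraMap k L (algebraMap A k b) * y ^ n =
        aeval x (F.map (algebraMap A k))) ∨
      ∃ r : L, algebraMap k L (algebraMap A k b) * r ^ Nat.gcd n F.natDegree =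
        algebraMap k L (algebraMap A k F.leadingCoeff)) :
    m ∣ finrank k L := by
  classical
  let _ : Algebra A L := ((algebraMap k L).comp (algebraMap A k)).toAlgebra
  have htow : IsScalarTower A k L := IsScalarTower.of_algebraMap_eq' rfl
  have hsep : Algebra.IsSeparable k L := inferInstance
  have hdd : IsDedekindDomain (integralClosure A L) := integralClosure.isDedekindDomain A k L
  have hfr : IsFractionRing (integralClosure A L) L :=
    integralClosure.isFractionRing_of_finite_extension k L
  have hfin : Module.Finite A (integralClosure A L) := IsIntegralClosure.finite A k L _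
  have hAL : Function.Injective (algebraMap A L) :=
    (algebraMap k L).injective.comp (IsFractionRing.injective A k)
  have hfaith : FaithfulSMul A (integralClosure A L) := by
    rw [faithfulSMul_iff_algebraMap_injective]
    have h1 : (algebraMap (integralClosure A L) L).comp (algebraMap A (integralClosure A L)) =
        algebraMap A L := (IsScalarTower.algebraMap_eq A (integralClosure A L) L).symm
    have h2 : Function.Injective ((algebraMap (integralClosure A L) L).comp
        (algebraMap A (integralClosure A L))) := by rw [h1]; exact hAL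
    rw [RingHom.coe_comp] at h2
    exact Function.Injective.of_comp h2
  refine local_dvd k (integralClosure A L) p m F hlc hcop hd b hb hb2 n hn0 hn ?_
  rcases h with ⟨x, y, h1⟩ | ⟨r, h1⟩
  · left
    refine ⟨x, y, ?_⟩
    rw [aeval_map_algebraMap] at h1
    exact h1
  · right
    exact ⟨r, h1⟩

variable {K : Type u} [Field K] [NumberField K]

/-- over the number field -/
theorem curve_dvd_K (v : HeightOneSpectrum (𝓞 K)) (m d : ℕ) (P : (𝓞 K)[X]) (hP : Loc v m d P)
    (hd : m ∣ d) (b : 𝓞 K) (hb : b ∈ v.asIdeal) (hb2 : b ∉ v.asIdeal ^ 2)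
    (n : ℕ) (hn0 : 0 < n) (hn : m ∣ n) (L : Type w) [Field L] [Algebra K L] [FiniteDimensional K L]
    (h : (∃ x y : L, algebraMap K L (b : K) * y ^ n = aeval x (P.map (algebraMap (𝓞 K) K))) ∨
      ∃ r : L, algebraMap K L (b : K) * r ^ Nat.gcd n d =
        algebraMap K L (P.leadingCoeff : K)) :
    m ∣ finrank K L := by
  obtain ⟨h1, h2, -, h4⟩ := hP
  have hfin : Finite (𝓞 K ⧸ v.asIdeal) := Ideal.finiteQuotientOfFreeOfNeBot _ v.ne_bot
  refine curve_dvd (𝓞 K) K v m P h2 ?_ (by rwa [h1]) b hb hb2 n hn0 hn L ?_
  · rw [Pool.Agent.TH120.Sec.card_residue]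
    exact h4
  · rw [h1]
    exact h

/-- over the completion -/
theorem curve_dvd_Kv (v : HeightOneSpectrum (𝓞 K)) (m d : ℕ) (P : (𝓞 K)[X]) (hP : Loc v m d P)
    (hd : m ∣ d) (b : 𝓞 K) (hb : b ∈ v.asIdeal) (hb2 : b ∉ v.asIdeal ^ 2)
    (n : ℕ) (hn0 : 0 < n) (hn : m ∣ n) (L : Type w) [Field L] [Algebra (v.adicCompletion K) L]
    [FiniteDimensional (v.adicCompletion K) L]
    (h : (∃ x y : L, algebraMap (v.adicCompletion K) L
        (algebraMap K (v.adicCompletion K) (b : K)) * y ^ n =
        aeval x ((P.map (algebraMap (𝓞 K) K)).map (algebraMap K (v.adicCompletion K)))) ∨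
      ∃ r : L, algebraMap (v.adicCompletion K) L
        (algebraMap K (v.adicCompletion K) (b : K)) * r ^ Nat.gcd n d =
        algebraMap (v.adicCompletion K) L
          (algebraMap K (v.adicCompletion K) (P.leadingCoeff : K))) :
    m ∣ finrank (v.adicCompletion K) L := by
  classical
  obtain ⟨h1, h2, -, h4⟩ := hP
  have hchar : CharZero (v.adicCompletion K) :=
    charZero_of_injective_algebraMap (algebraMap K (v.adicCompletion K)).injective
  have hmax : v.asIdeal.IsMaximal := v.isMaximal
  let _ := Ideal.Quotient.field v.asIdeal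
  obtain ⟨θ, hθ, hθr⟩ := exists_residue_map v
  have hθinj : Function.Injective θ := θ.injective
  have hdvr : IsDiscreteValuationRing (vv v).valuationSubring :=
    inferInstanceAs (IsDiscreteValuationRing (v.adicCompletionIntegers K))
  let i : 𝓞 K →+* (vv v).valuationSubring :=
    { toFun := fun r => ⟨algebraMap K (v.adicCompletion K) (r : K), by
        change vv v _ ≤ 1
        rw [vv_algebraMap]
        exact v.valuation_le_one r⟩
      map_one' := Subtype.ext (by simp)
      map_mul' := fun y z => Subtype.ext (by simp)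
      map_zero' := Subtype.ext (by simp)
      map_add' := fun y z => Subtype.ext (by simp) }
  have hi : ∀ r, ((i r : (vv v).valuationSubring) : v.adicCompletion K) =
      algebraMap K (v.adicCompletion K) (r : K) := fun _ => rfl
  have hires : ∀ r : 𝓞 K, IsLocalRing.residue (vv v).valuationSubring (i r) =
      θ (Ideal.Quotient.mk v.asIdeal r) := by
    intro r
    refine hθr r (i r) ?_
    change vv v (algebraMap K (v.adicCompletion K) (r : K) -
      algebraMap K (v.adicCompletion K) (algebraMap (𝓞 K) K r)) < 1
    rw [sub_self, map_zero]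
    exact zero_lt_one
  have hiinj : Function.Injective i := by
    intro y z hyz
    have h5 := congrArg Subtype.val hyz
    exact RingOfIntegers.coe_injective ((algebraMap K (v.adicCompletion K)).injective h5)
  set p : HeightOneSpectrum (vv v).valuationSubring :=
    IsDiscreteValuationRing.maximalIdeal (vv v).valuationSubring with hp
  have hpi : p.asIdeal = IsLocalRing.maximalIdeal (vv v).valuationSubring := rfl
  have hmemi : ∀ r : 𝓞 K, i r ∈ p.asIdeal ↔ r ∈ v.asIdeal := by
    intro r
    rw [hpi, ← IsLocalRing.residue_eq_zero_iff, hires, map_eq_zero_iff _ hθinj,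
      Ideal.Quotient.eq_zero_iff_mem]
  have hvv : ∀ z ∈ p.asIdeal, vv v (z : v.adicCompletion K) ≤ WithZero.exp (-1) := by
    intro z hz
    have h5 : vv v (z : v.adicCompletion K) < 1 := (mem_max v z).1 hz
    by_cases h6 : vv v (z : v.adicCompletion K) = 0
    · rw [h6]
      exact zero_le
    · rw [← WithZero.exp_log h6, ← WithZero.exp_zero, WithZero.exp_lt_exp] at h5
      rw [← WithZero.exp_log h6, WithZero.exp_le_exp]
      omega
  have hvv2 : ∀ z ∈ p.asIdeal ^ 2, vv v (z : v.adicCompletion K) ≤ WithZero.exp (-2) := by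
    intro z hz
    rw [pow_two] at hz
    refine Submodule.mul_induction_on hz ?_ ?_
    · intro a ha c hc
      have h5 : vv v ((a * c : (vv v).valuationSubring) : v.adicCompletion K) =
          vv v (a : v.adicCompletion K) * vv v (c : v.adicCompletion K) := map_mul _ _ _
      rw [h5]
      calc vv v (a : v.adicCompletion K) * vv v (c : v.adicCompletion K) ≤
          WithZero.exp (-1) * WithZero.exp (-1) := mul_le_mul' (hvv a ha) (hvv c hc)
        _ = WithZero.exp (-2) := by rw [← WithZero.exp_add]; rfl
    · intro a c ha hc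
      exact (Valuation.map_add (vv v) _ _).trans (max_le ha hc)
  have hresi : ∀ r : 𝓞 K, i r ∉ p.asIdeal ^ 2 ∨ r ∈ v.asIdeal ^ 2 := by
    intro r
    by_cases hr : r ∈ v.asIdeal ^ 2
    · exact Or.inr hr
    · left
      intro h5
      apply hr
      have h6 := hvv2 _ h5
      rw [hi, vv_algebraMap] at h6
      have h7 : v.intValuation r ≤ WithZero.exp (-((2 : ℕ) : ℤ)) := by
        rw [← v.valuation_of_algebraMap (K := K)]
        exact_mod_cast h6
      exact (v.intValuation_le_pow_iff_mem r 2).1 h7
  have hfinv : Finite (𝓞 K ⧸ v.asIdeal) := Ideal.finiteQuotientOfFreeOfNeBot _ v.ne_bot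
  have hfinp : Finite ((vv v).valuationSubring ⧸ p.asIdeal) := Finite.of_surjective θ hθ
  have hcard : Nat.card ((vv v).valuationSubring ⧸ p.asIdeal) = Ideal.absNorm v.asIdeal := by
    rw [← Pool.Agent.TH120.Sec.card_residue]
    exact (Nat.card_congr (Equiv.ofBijective θ ⟨hθinj, hθ⟩)).symm
  have hdeg : (P.map i).natDegree = d := by
    rw [natDegree_map_eq_of_injective hiinj, h1]
  have hmapi : (P.map i).map (algebraMap (vv v).valuationSubring (v.adicCompletion K)) =
      (P.map (algebraMap (𝓞 K) K)).map (algebraMap K (v.adicCompletion K)) := by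
    rw [Polynomial.map_map, Polynomial.map_map]
    rfl
  refine curve_dvd (vv v).valuationSubring (v.adicCompletion K) p m (P.map i) ?_ ?_
    (by rwa [hdeg]) (i b) ((hmemi b).2 hb) ((hresi b).resolve_right hb2) n hn0 hn L ?_
  · rw [leadingCoeff_map_of_injective hiinj, hmemi]
    exact h2
  · intro j hj
    have h5 := (h4 j hj).map (Polynomial.mapRingHom θ)
    rw [hcard]
    have h6 : (P.map i).map (Ideal.Quotient.mk p.asIdeal) =
        (P.map (Ideal.Quotient.mk v.asIdeal)).map θ := by
      rw [Polynomial.map_map, Polynomial.map_map]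
      congr 1
      ext r
      exact hires r
    rw [h6]
    have h7 : IsCoprime (X ^ Ideal.absNorm v.asIdeal ^ j - X :
        (IsLocalRing.ResidueField (vv v).valuationSubring)[X])
        ((P.map (Ideal.Quotient.mk v.asIdeal)).map θ) := by simpa using h5
    exact h7
  · rw [hdeg, hmapi, leadingCoeff_map_of_injective hiinj]
    exact h

end Pool.Agent.TH728.ZC
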