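import Mathlib

/-!
# Closed points of known degree on superelliptic curves, points in residue fields of valuation rings
-/

set_option autoImplicit false

namespace Pool.Agent.TH728.ZC

open Polynomial Module

universe u v w

/-- the degree of a polynomial is a sum of degrees of irreducible factors -/
lemma natDegree_mem {k : Type u} [Field k] (S : AddSubgroup ℤ) (P : k[X]) (hP : P ≠ 0)
    (h : ∀ q : k[X], Irreducible q → q ∣ P → (q.natDegree : ℤ) ∈ S) : (P.natDegree : ℤ) ∈ S := by
  revert hP h
  refine WfDvdMonoid.induction_on_irreducible (motive := fun P => P ≠ 0 →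
    (∀ q : k[X], Irreducible q → q ∣ P → (q.natDegree : ℤ) ∈ S) → (P.natDegree : ℤ) ∈ S) P ?_ ?_ ?_
  · intro h _
    exact absurd rfl h
  · intro u hu _ _
    rw [natDegree_eq_zero_of_isUnit hu]
    exact S.zero_mem
  · intro a i ha hi ih hia h
    rw [natDegree_mul hi.ne_zero ha, Nat.cast_add]
    exact S.add_mem (h i hi (dvd_mul_right i a)) (ih ha fun q hq hqa => h q hq (hqa.mul_left i))

/-- closed points whose degrees generate `gcd(n, d) ℤ` -/
theorem gcd_mem {k : Type u} [Field k] (n : ℕ) (hn : 0 < n) (a : k) (ha : a ≠ 0) (f : k[X])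
    (hf : f ≠ 0) (S : AddSubgroup ℤ)
    (hS : ∀ (L : Type u) [Field L] [Algebra k L] [FiniteDimensional k L] (x y : L),
      algebraMap k L a * y ^ n = aeval x f → (finrank k L : ℤ) ∈ S) :
    ((Nat.gcd n f.natDegree : ℕ) : ℤ) ∈ S := by
  have h1 : (f.natDegree : ℤ) ∈ S := by
    refine natDegree_mem S f hf fun q hq hqf => ?_
    have : Fact (Irreducible q) := ⟨hq⟩
    have hfd : FiniteDimensional k (AdjoinRoot q) := (AdjoinRoot.powerBasis hq.ne_zero).finite
    have h2 := hS (AdjoinRoot q) (AdjoinRoot.root q) 0 (by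
      obtain ⟨r, hr⟩ := hqf
      rw [zero_pow hn.ne', mul_zero, hr, map_mul, aeval_def, AdjoinRoot.algebraMap_eq,
        AdjoinRoot.eval₂_root, zero_mul])
    rwa [(AdjoinRoot.powerBasis hq.ne_zero).finrank, AdjoinRoot.powerBasis_dim] at h2
  have h2 : (n : ℤ) ∈ S := by
    have h3 : (C a * X ^ n - C (f.eval 0)).natDegree = n := by
      rw [natDegree_sub_C, natDegree_C_mul_X_pow n a ha]
    have h4 : (C a * X ^ n - C (f.eval 0)) ≠ 0 := by
      intro h0
      rw [h0, natDegree_zero] at h3
      omega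
    have h5 := natDegree_mem S _ h4 ?_
    · rwa [h3] at h5
    · intro q hq hqd
      have : Fact (Irreducible q) := ⟨hq⟩
      have hfd : FiniteDimensional k (AdjoinRoot q) := (AdjoinRoot.powerBasis hq.ne_zero).finite
      have h6 := hS (AdjoinRoot q) 0 (AdjoinRoot.root q) (by
        have h7 : aeval (AdjoinRoot.root q) (C a * X ^ n - C (f.eval 0)) = 0 := by
          obtain ⟨r, hr⟩ := hqd
          rw [hr, map_mul, aeval_def, AdjoinRoot.algebraMap_eq, AdjoinRoot.eval₂_root, zero_mul]
        rw [map_sub, map_mul, map_pow, aeval_C, aeval_C, aeval_X, sub_eq_zero] at h7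
        rw [h7]
        have h8 : (0 : AdjoinRoot q) = algebraMap k (AdjoinRoot q) 0 := (map_zero _).symm
        rw [h8, aeval_algebraMap_apply, coe_aeval_eq_eval])
      rwa [(AdjoinRoot.powerBasis hq.ne_zero).finrank, AdjoinRoot.powerBasis_dim] at h6
  rw [Nat.gcd_eq_gcd_ab]
  refine S.add_mem ?_ ?_
  · rw [mul_comm, ← smul_eq_mul]
    exact S.zsmul_mem h2 _
  · rw [mul_comm, ← smul_eq_mul]
    exact S.zsmul_mem h1 _

/-- Points of the curve in the residue fields of the valuation rings of a field that contains a point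
of the curve. -/
theorem residue_point {k : Type u} {F : Type v} [Field k] [Field F] [Algebra k F]
    (O : ValuationSubring F) [Algebra k O] [IsScalarTower k O F] (n : ℕ) (hn : 0 < n) (a : k)
    (ha : a ≠ 0) (f : k[X]) (x y : F) (hxy : algebraMap k F a * y ^ n = aeval x f) :
    (∃ x' y' : IsLocalRing.ResidueField O,
      algebraMap k (IsLocalRing.ResidueField O) a * y' ^ n = aeval x' f) ∨
    ∃ r : IsLocalRing.ResidueField O,
      algebraMap k (IsLocalRing.ResidueField O) a * r ^ Nat.gcd n f.natDegree =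
        algebraMap k (IsLocalRing.ResidueField O) f.leadingCoeff := by
  classical
  have hint : ∀ (z : F) (m : ℕ), 0 < m → z ^ m ∈ O → z ∈ O := by
    intro z m hm hz
    rw [← ValuationSubring.valuation_le_one_iff] at hz ⊢
    rw [map_pow] at hz
    exact (pow_le_one_iff hm.ne').1 hz
  have hk : ∀ c : k, algebraMap k F c ∈ O := fun c => by
    rw [IsScalarTower.algebraMap_apply k O F]
    exact (algebraMap k O c).2
  have haF : algebraMap k F a ≠ 0 := by rwa [Ne, map_eq_zero]
  have hkO : ∀ c : k, algebraMap k (IsLocalRing.ResidueField O) c =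
      IsLocalRing.residue O (algebraMap k O c) := fun c => rfl
  by_cases hx : x ∈ O
  · left
    have hyn : y ^ n ∈ O := by
      have e1 : y ^ n = algebraMap k F a⁻¹ * aeval x f := by
        rw [← hxy, ← mul_assoc, ← map_mul, inv_mul_cancel₀ ha, map_one, one_mul]
      rw [e1]
      refine O.mul_mem _ _ (hk _) ?_
      rw [aeval_eq_sum_range]
      refine O.sum_mem fun i _ => ?_
      rw [Algebra.smul_def]
      exact O.mul_mem _ _ (hk _) (pow_mem hx i)
    have hy : y ∈ O := hint y n hn hyn
    refine ⟨IsLocalRing.residue O ⟨x, hx⟩, IsLocalRing.residue O ⟨y, hy⟩, ?_⟩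
    have e2 : algebraMap k O a * (⟨y, hy⟩ : O) ^ n = aeval (⟨x, hx⟩ : O) f := by
      apply Subtype.ext
      have e3 : ((aeval (⟨x, hx⟩ : O) f : O) : F) = aeval x f := by
        change algebraMap O F (aeval (⟨x, hx⟩ : O) f) = _
        rw [← aeval_algebraMap_apply]
        rfl
      rw [e3, ← hxy]
      change algebraMap O F (algebraMap k O a * (⟨y, hy⟩ : O) ^ n) = _
      rw [map_mul, map_pow, ← IsScalarTower.algebraMap_apply]
      rfl
    have e4 := congrArg (IsLocalRing.residue O) e2
    rw [map_mul, map_pow] at e4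
    rw [hkO, e4]
    have e5 := aeval_algebraMap_apply (IsLocalRing.ResidueField O) (⟨x, hx⟩ : O) f
    exact e5.symm
  · right
    have hx0 : x ≠ 0 := fun h => hx (h ▸ O.zero_mem)
    have ht : x⁻¹ ∈ O := (O.mem_or_inv_mem x).resolve_left hx
    have htm : (⟨x⁻¹, ht⟩ : O) ∈ IsLocalRing.maximalIdeal O := by
      rw [IsLocalRing.mem_maximalIdeal, mem_nonunits_iff]
      intro hu
      obtain ⟨z, hz⟩ := hu.exists_right_inv
      apply hx
      have h1 : x⁻¹ * (z : F) = 1 := congrArg Subtype.val hz
      have h2 : x = z := by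
        field_simp at h1
        exact h1.symm
      rw [h2]
      exact z.2
    set g := Nat.gcd n f.natDegree with hg
    have hgpos : 0 < g := Nat.gcd_pos_of_pos_left _ hn
    obtain ⟨n', hn'⟩ := Nat.gcd_dvd_left n f.natDegree
    obtain ⟨d', hd'⟩ := Nat.gcd_dvd_right n f.natDegree
    rw [← hg] at hn' hd'
    set u : F := y ^ n' * x⁻¹ ^ d' with hu
    have hrev : x⁻¹ ^ f.natDegree * aeval x f = aeval x⁻¹ f.reverse := by
      let _ : Invertible x := invertibleOfNonzero hx0
      have h1 := eval₂_reverse_mul_pow (algebraMap k F) x f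
      rw [invOf_eq_inv] at h1
      rw [aeval_def, aeval_def, ← h1, mul_comm (eval₂ _ _ _), ← mul_assoc, ← mul_pow,
        inv_mul_cancel₀ hx0, one_pow, one_mul]
    have hug : algebraMap k F a * u ^ g = aeval x⁻¹ f.reverse := by
      rw [← hrev, ← hxy, hu, mul_pow, ← pow_mul, ← pow_mul, mul_comm n' g, mul_comm d' g, ← hn',
        ← hd']
      ring
    have hO : ∀ (z : F) (_ : z ∈ O) (q : k[X]), aeval z q ∈ O := by
      intro z hz q
      rw [aeval_eq_sum_range]
      refine O.sum_mem fun i _ => ?_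
      rw [Algebra.smul_def]
      exact O.mul_mem _ _ (hk _) (pow_mem hz i)
    have huO : u ∈ O := by
      refine hint u g hgpos ?_
      have e1 : u ^ g = algebraMap k F a⁻¹ * aeval x⁻¹ f.reverse := by
        rw [← hug, ← mul_assoc, ← map_mul, inv_mul_cancel₀ ha, map_one, one_mul]
      rw [e1]
      exact O.mul_mem _ _ (hk _) (hO _ ht _)
    refine ⟨IsLocalRing.residue O ⟨u, huO⟩, ?_⟩
    have e2 : algebraMap k O a * (⟨u, huO⟩ : O) ^ g = aeval (⟨x⁻¹, ht⟩ : O) f.reverse := by
      apply Subtype.ext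
      have e3 : ((aeval (⟨x⁻¹, ht⟩ : O) f.reverse : O) : F) = aeval x⁻¹ f.reverse := by
        change algebraMap O F (aeval (⟨x⁻¹, ht⟩ : O) f.reverse) = _
        rw [← aeval_algebraMap_apply]
        rfl
      rw [e3, ← hug]
      change algebraMap O F (algebraMap k O a * (⟨u, huO⟩ : O) ^ g) = _
      rw [map_mul, map_pow, ← IsScalarTower.algebraMap_apply]
      rfl
    have e4 := congrArg (IsLocalRing.residue O) e2
    rw [map_mul, map_pow] at e4
    rw [hkO, e4]
    have e5 := aeval_algebraMap_apply (IsLocalRing.ResidueField O) (⟨x⁻¹, ht⟩ : O) f.reverse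
    have e6 : algebraMap O (IsLocalRing.ResidueField O) (⟨x⁻¹, ht⟩ : O) = 0 :=
      (IsLocalRing.residue_eq_zero_iff _).2 htm
    rw [e6, ← coeff_zero_eq_aeval_zero', coeff_zero_reverse] at e5
    exact e5.symm

end Pool.Agent.TH728.ZC
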