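import Pool.Agent.TH728.ZC.Res

/-!
# Degrees of the points of superelliptic curves over discretely valued fields
-/

set_option autoImplicit false

namespace Pool.Agent.TH728.ZC

open Polynomial Module WithZero

universe u v w

/-- the norms of the values of `f` -/
lemma val_norm {k : Type u} [Field k] [CharZero k] {Γ : Type v} [LinearOrderedCommGroupWithZero Γ]
    (V : Valuation k Γ) (f : V.valuationSubring[X]) (hf : IsUnit f.leadingCoeff)
    (hirr : Irreducible (f.map (IsLocalRing.residue V.valuationSubring)))
    {L : Type w} [Field L] [Algebra k L] [FiniteDimensional k L] (x : L)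
    (h0 : aeval x (f.map (algebraMap V.valuationSubring k)) ≠ 0) :
    ∃ c : k, c ≠ 0 ∧ V (Algebra.norm k (aeval x (f.map (algebraMap V.valuationSubring k)))) =
      V c ^ f.natDegree := by
  obtain ⟨s, hs⟩ := norm_aeval x (f.map (algebraMap V.valuationSubring k))
  have h1 : Algebra.norm k (aeval x (f.map (algebraMap V.valuationSubring k))) ≠ 0 :=
    Algebra.norm_ne_zero_iff.2 h0
  rw [hs] at h1 ⊢
  by_cases h2 : resultant (minpoly k x) (f.map (algebraMap V.valuationSubring k)) = 0
  · have hs0 : s = 0 := by
      by_contra hs0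
      rw [h2, zero_pow hs0] at h1
      exact h1 rfl
    refine ⟨1, one_ne_zero, ?_⟩
    rw [hs0, pow_zero, map_one, one_pow]
  · obtain ⟨c, hc, h3⟩ := val_res V f hf hirr _ h2
    refine ⟨c ^ s, pow_ne_zero _ hc, ?_⟩
    rw [map_pow, h3, map_pow, ← pow_mul, ← pow_mul, mul_comm]

/-- the local theorem -/
theorem dvd_finrank {k : Type u} [Field k] [CharZero k] (V : Valuation k ℤᵐ⁰)
    (f : V.valuationSubring[X]) (hf : IsUnit f.leadingCoeff)
    (hirr : Irreducible (f.map (IsLocalRing.residue V.valuationSubring)))
    (a : k) (ha : V a = exp (-1)) (n : ℕ) (hn : 0 < n)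
    {L : Type w} [Field L] [Algebra k L] [FiniteDimensional k L]
    (h : (∃ x y : L, algebraMap k L a * y ^ n =
        aeval x (f.map (algebraMap V.valuationSubring k))) ∨
      ∃ r : L, algebraMap k L a * r ^ Nat.gcd n f.natDegree =
        algebraMap k L (f.map (algebraMap V.valuationSubring k)).leadingCoeff) :
    Nat.gcd n f.natDegree ∣ finrank k L := by
  have hlog : ∀ z : k, z ≠ 0 → V z = exp (log (V z)) := fun z hz =>
    (exp_log ((Valuation.ne_zero_iff V).2 hz)).symm
  have hinj : Function.Injective (algebraMap V.valuationSubring k) := Subtype.val_injective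
  rcases h with ⟨x, y, hxy⟩ | ⟨r, hr⟩
  · by_cases h0 : aeval x (f.map (algebraMap V.valuationSubring k)) = 0
    · have h1 := minpoly.eq_of_irreducible (irr_field V f hf hirr) h0
      have h2 : (minpoly k x).natDegree = f.natDegree := by
        rw [← h1, natDegree_mul_C, natDegree_map_eq_of_injective hinj]
        rw [Ne, inv_eq_zero, leadingCoeff_eq_zero]
        exact (irr_field V f hf hirr).ne_zero
      have h3 := minpoly.degree_dvd (K := k) (L := L) (Algebra.IsIntegral.isIntegral x)
      rw [h2] at h3
      exact (Nat.gcd_dvd_right _ _).trans h3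
    · obtain ⟨c, hc, h1⟩ := val_norm V f hf hirr x h0
      have hy : y ≠ 0 := by
        rintro rfl
        rw [zero_pow hn.ne', mul_zero] at hxy
        exact h0 hxy.symm
      have hNy : Algebra.norm k y ≠ 0 := Algebra.norm_ne_zero_iff.2 hy
      rw [← hxy, map_mul, Algebra.norm_algebraMap, map_pow, map_mul, map_pow, map_pow, ha,
        hlog _ hNy, hlog c hc, ← exp_nsmul, ← exp_nsmul, ← exp_nsmul, ← exp_add, exp_inj,
        nsmul_eq_mul, nsmul_eq_mul, nsmul_eq_mul] at h1
      obtain ⟨n', hn'⟩ := Nat.gcd_dvd_left n f.natDegree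
      obtain ⟨d', hd'⟩ := Nat.gcd_dvd_right n f.natDegree
      have h2 : ((Nat.gcd n f.natDegree : ℕ) : ℤ) ∣ (finrank k L : ℤ) := by
        have h3 : (n : ℤ) = (Nat.gcd n f.natDegree : ℤ) * n' := by exact_mod_cast hn'
        have h4 : (f.natDegree : ℤ) = (Nat.gcd n f.natDegree : ℤ) * d' := by exact_mod_cast hd'
        have h5 : (finrank k L : ℤ) = (n : ℤ) * log (V (Algebra.norm k y)) -
          (f.natDegree : ℤ) * log (V c) := by linarith
        have h6 : ((Nat.gcd n f.natDegree : ℕ) : ℤ) ∣ (n : ℤ) := Dvd.intro _ h3.symm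
        have h7 : ((Nat.gcd n f.natDegree : ℕ) : ℤ) ∣ (f.natDegree : ℤ) := Dvd.intro _ h4.symm
        rw [h5]
        exact dvd_sub (h6.mul_right _) (h7.mul_right _)
      exact_mod_cast h2
  · have hlc : (f.map (algebraMap V.valuationSubring k)).leadingCoeff =
        algebraMap V.valuationSubring k f.leadingCoeff := leadingCoeff_map_of_injective hinj f
    have hVlc : V (algebraMap V.valuationSubring k f.leadingCoeff) = 1 :=
      (Valuation.Integers.isUnit_iff_valuation_eq_one
        (Valuation.valuationSubring.integers V)).1 hf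
    have hlc0 : algebraMap V.valuationSubring k f.leadingCoeff ≠ 0 := by
      intro h
      rw [h, map_zero] at hVlc
      exact zero_ne_one hVlc
    have hn0 : Nat.gcd n f.natDegree ≠ 0 := (Nat.gcd_pos_of_pos_left _ hn).ne'
    have hr0 : r ≠ 0 := by
      rintro rfl
      rw [zero_pow hn0, mul_zero, hlc, eq_comm, map_eq_zero] at hr
      exact hlc0 hr
    have hNr : Algebra.norm k r ≠ 0 := Algebra.norm_ne_zero_iff.2 hr0
    have h1 : V (Algebra.norm k (algebraMap k L a * r ^ Nat.gcd n f.natDegree)) =
        V (Algebra.norm k (algebraMap k L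
          (f.map (algebraMap V.valuationSubring k)).leadingCoeff)) := by rw [hr]
    rw [map_mul, Algebra.norm_algebraMap, map_pow, map_mul, map_pow, map_pow,
      Algebra.norm_algebraMap, map_pow, hlc, hVlc, one_pow, ha, hlog _ hNr, ← exp_nsmul,
      ← exp_nsmul, ← exp_add, ← exp_zero, exp_inj, nsmul_eq_mul, nsmul_eq_mul] at h1
    have h2 : ((Nat.gcd n f.natDegree : ℕ) : ℤ) ∣ (finrank k L : ℤ) :=
      ⟨log (V (Algebra.norm k r)), by linarith⟩
    exact_mod_cast h2

/-- the local theorem for a field embedded into a discretely valued field -/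
theorem dvd_of_embedding {k : Type u} {E : Type v} [Field k] [CharZero k] [Field E]
    (V : Valuation E ℤᵐ⁰) (ψ : k →+* E) (g : k[X]) (gB : V.valuationSubring[X])
    (hg : gB.map (algebraMap V.valuationSubring E) = g.map ψ) (hlc : IsUnit gB.leadingCoeff)
    (hirr : Irreducible (gB.map (IsLocalRing.residue V.valuationSubring)))
    (a : k) (ha : V (ψ a) = exp (-1)) :
    Irreducible g ∧ ∀ (n : ℕ), 0 < n → ∀ (L : Type w) [Field L] [Algebra k L]
      [FiniteDimensional k L],
    ((∃ x y : L, algebraMap k L a * y ^ n = aeval x g) ∨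
      ∃ r : L, algebraMap k L a * r ^ Nat.gcd n g.natDegree = algebraMap k L g.leadingCoeff) →
    Nat.gcd n g.natDegree ∣ finrank k L := by
  classical
  let i : (V.comap ψ).valuationSubring →+* V.valuationSubring :=
    { toFun := fun y => ⟨ψ y, y.2⟩
      map_one' := Subtype.ext (map_one ψ)
      map_mul' := fun y z => Subtype.ext (map_mul ψ _ _)
      map_zero' := Subtype.ext (map_zero ψ)
      map_add' := fun y z => Subtype.ext (map_add ψ _ _) }
  have hinj : Function.Injective i := by
    intro y z hyz
    apply Subtype.ext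
    apply ψ.injective
    have := congrArg Subtype.val hyz
    exact this
  have hloc : IsLocalHom i := by
    refine ⟨fun y hy => ?_⟩
    have h1 := (Valuation.Integers.isUnit_iff_valuation_eq_one
      (Valuation.valuationSubring.integers V)).1 hy
    exact (Valuation.Integers.isUnit_iff_valuation_eq_one
      (Valuation.valuationSubring.integers (V.comap ψ))).2 h1
  obtain ⟨f, hf⟩ : ∃ f : (V.comap ψ).valuationSubring[X],
      f.map (algebraMap (V.comap ψ).valuationSubring k) = g := by
    have h1 : g ∈ Polynomial.lifts (algebraMap (V.comap ψ).valuationSubring k) := by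
      rw [Polynomial.lifts_iff_coeff_lifts]
      intro j
      have h3 : ψ (g.coeff j) = (gB.coeff j : E) := by
        have := congrArg (fun q => q.coeff j) hg
        simp only [coeff_map] at this
        exact this.symm
      exact ⟨⟨g.coeff j, by
        change V (ψ (g.coeff j)) ≤ 1
        rw [h3]
        exact (gB.coeff j).2⟩, rfl⟩
    obtain ⟨f, hf⟩ := (Polynomial.mem_lifts _).1 h1
    exact ⟨f, hf⟩
  have hfB : f.map i = gB := by
    apply Polynomial.map_injective (algebraMap V.valuationSubring E) Subtype.val_injective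
    rw [hg, ← hf, Polynomial.map_map, Polynomial.map_map]
    rfl
  have hdeg : f.natDegree = g.natDegree := by
    rw [← hf]
    exact (natDegree_map_eq_of_injective Subtype.val_injective f).symm
  have hlcf : IsUnit f.leadingCoeff := by
    have h1 : i f.leadingCoeff = gB.leadingCoeff := by
      rw [← hfB]
      exact (leadingCoeff_map_of_injective hinj f).symm
    rw [← h1] at hlc
    exact hloc.map_nonunit _ hlc
  have hfi : Irreducible (f.map (IsLocalRing.residue (V.comap ψ).valuationSubring)) := by
    have h1 : Irreducible ((f.map (IsLocalRing.residue (V.comap ψ).valuationSubring)).map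
        (IsLocalRing.ResidueField.map i)) := by
      rw [Polynomial.map_map, IsLocalRing.ResidueField.map_comp_residue, ← Polynomial.map_map, hfB]
      exact hirr
    refine ⟨fun hu => h1.1 (hu.map (Polynomial.mapRingHom _)), ?_⟩
    intro p q hpq
    have h2 := congrArg (Polynomial.map (IsLocalRing.ResidueField.map i)) hpq
    rw [Polynomial.map_mul] at h2
    rcases h1.2 h2 with h3 | h3
    · left
      rw [isUnit_iff_degree_eq_zero] at h3 ⊢
      rwa [degree_map] at h3
    · right
      rw [isUnit_iff_degree_eq_zero] at h3 ⊢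
      rwa [degree_map] at h3
  refine ⟨?_, ?_⟩
  · rw [← hf]
    exact irr_field (V.comap ψ) f hlcf hfi
  · intro n hn L _ _ _ h
    rw [← hdeg]
    refine dvd_finrank (V.comap ψ) f hlcf hfi a ha n hn ?_
    rw [hf, hdeg]
    exact h

end Pool.Agent.TH728.ZC
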