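import Mathlib

/-!
# Norms of values of polynomials, and the index of superelliptic curves over discretely valued fields
-/

set_option autoImplicit false

namespace Pool.Agent.TH728.ZC

open Polynomial IntermediateField Module

universe u w

/-- The norm of `f(x)` is a power of the resultant of the minimal polynomial of `x` and `f`. -/
lemma norm_aeval {k : Type u} {L : Type w} [Field k] [CharZero k] [Field L] [Algebra k L]
    [FiniteDimensional k L] (x : L) (f : k[X]) :
    ∃ s : ℕ, Algebra.norm k (aeval x f) = (resultant (minpoly k x) f) ^ s := by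
  classical
  have hx : IsIntegral k x := Algebra.IsIntegral.isIntegral x
  refine ⟨finrank k⟮x⟯ L, ?_⟩
  have e1 : aeval x f = algebraMap k⟮x⟯ L (aeval (AdjoinSimple.gen k x) f) := by
    rw [← aeval_algebraMap_apply, AdjoinSimple.algebraMap_gen]
  rw [e1, ← Algebra.norm_norm (S := k⟮x⟯), Algebra.norm_algebraMap, map_pow]
  congr 1
  apply (algebraMap k (AlgebraicClosure k)).injective
  have hfd : FiniteDimensional k k⟮x⟯ := adjoin.finiteDimensional hx
  rw [Algebra.norm_eq_prod_embeddings k (AlgebraicClosure k), ← resultant_map_map]
  have hmon := minpoly.monic hx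
  have hspl : ((minpoly k x).map (algebraMap k (AlgebraicClosure k))).Splits := IsAlgClosed.splits _
  have e2 := resultant_eq_prod_eval ((minpoly k x).map (algebraMap k (AlgebraicClosure k)))
    (f.map (algebraMap k (AlgebraicClosure k))) f.natDegree (natDegree_map_le) hspl
  rw [natDegree_map] at e2
  rw [e2, (hmon.map _).leadingCoeff, one_pow, one_mul]
  let pb := adjoin.powerBasis hx
  have hgen : pb.gen = AdjoinSimple.gen k x := adjoin.powerBasis_gen hx
  have hmin : minpoly k pb.gen = minpoly k x := by
    rw [hgen]
    exact minpoly_gen k x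
  rw [← hmin]
  rw [Fintype.prod_equiv pb.liftEquiv'
    (fun σ => σ ((aeval (AdjoinSimple.gen k x)) f))
    (fun y => (f.map (algebraMap k (AlgebraicClosure k))).eval y.1) ?_]
  · rw [Finset.prod_mem_multiset, Finset.prod_eq_multiset_prod, Multiset.toFinset_val,
      Multiset.dedup_eq_self.mpr]
    · exact nodup_roots (.map (Algebra.IsSeparable.isSeparable k pb.gen))
    · intro x; rfl
  · intro σ
    rw [PowerBasis.liftEquiv'_apply_coe, eval_map_algebraMap, hgen, aeval_algHom_apply]

end Pool.Agent.TH728.ZC
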