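import Mathlib

/-!
# The places above a prime of a Dedekind domain
-/

set_option autoImplicit false

namespace Pool.Agent.TH728.ZC

open Polynomial IsDedekindDomain Module

universe u v w x

section

variable {A : Type u} {k : Type v} {B : Type w} {L : Type x} [CommRing A] [IsDedekindDomain A]
  [Field k] [Algebra A k] [IsFractionRing A k] [CommRing B] [IsDedekindDomain B] [Field L]
  [Algebra B L] [IsFractionRing B L] [Algebra A B] [Module.Finite A B] [FaithfulSMul A B]
  [Algebra k L] [Algebra A L] [IsScalarTower A k L] [IsScalarTower A B L]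

omit [Module.Finite A B] in
/-- a prime over `p` -/
def ovp (p : HeightOneSpectrum A) (q : p.asIdeal.primesOver B) : HeightOneSpectrum B where
  asIdeal := q.1
  isPrime := q.2.1
  ne_bot := by
    have := q.2.2
    intro h
    apply p.ne_bot
    have h1 := this.over
    rw [h] at h1
    rw [h1]
    exact Ideal.comap_bot_of_injective _ (FaithfulSMul.algebraMap_injective A B)

instance ovp_lies (p : HeightOneSpectrum A) (q : p.asIdeal.primesOver B) :
    (ovp p q).asIdeal.LiesOver p.asIdeal := q.2.2

variable (k L) in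
/-- a place whose local degree is not divisible by `m` -/
theorem exists_place (p : HeightOneSpectrum A) (m : ℕ) (hm : ¬ m ∣ finrank k L) :
    ∃ q : p.asIdeal.primesOver B, ¬ m ∣ q.1.ramificationIdx A * q.1.inertiaDeg A := by
  classical
  have := p.isMaximal
  have htf : Module.IsTorsionFree A B := inferInstance
  have hfin : Finite (p.asIdeal.primesOver B) := inferInstance
  let _ : Fintype (p.asIdeal.primesOver B) := Fintype.ofFinite _
  by_contra h
  push Not at h
  apply hm
  rw [IsFractionRing.finrank_eq A k B L, ← Ideal.sum_ramification_inertia_eq_finrank p.asIdeal B]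
  exact Finset.dvd_sum fun q _ => h q

omit [Module.Finite A B] in
lemma pl_val_eq_one (p : HeightOneSpectrum A) (q : p.asIdeal.primesOver B) (a : A)
    (ha : a ∉ p.asIdeal) : (ovp p q).valuation L (algebraMap A L a) = 1 := by
  rw [IsScalarTower.algebraMap_apply A B L, HeightOneSpectrum.valuation_eq_one_iff_notMem]
  intro h
  apply ha
  have h1 := q.2.2.over
  rw [h1]
  exact h

lemma pl_val_unif (p : HeightOneSpectrum A) (b : A) (h1 : b ∈ p.asIdeal) (h2 : b ∉ p.asIdeal ^ 2) :
    p.valuation k (algebraMap A k b) = WithZero.exp (-1 : ℤ) := by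
  have h3 : p.intValuation b ≤ WithZero.exp (-((1 : ℕ) : ℤ)) := by
    rw [p.intValuation_le_pow_iff_mem, pow_one]
    exact h1
  have h4 : ¬ p.intValuation b ≤ WithZero.exp (-((2 : ℕ) : ℤ)) := by
    rw [p.intValuation_le_pow_iff_mem]
    exact h2
  rw [p.valuation_of_algebraMap]
  have hb : b ≠ 0 := by
    rintro rfl
    exact h2 (zero_mem _)
  rw [p.intValuation_eq_exp_neg_multiplicity hb] at h3 h4 ⊢
  rw [WithZero.exp_le_exp] at h3 h4
  congr 1
  push_cast at h3 h4
  omega

variable (k) in
include k in
/-- the value of a uniformizer -/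
lemma pl_val (p : HeightOneSpectrum A) (q : p.asIdeal.primesOver B) (b : A)
    (h1 : b ∈ p.asIdeal) (h2 : b ∉ p.asIdeal ^ 2) :
    (ovp p q).valuation L (algebraMap A L b) =
      WithZero.exp (-(q.1.ramificationIdx A : ℤ)) := by
  have hpm : p.asIdeal.IsMaximal := p.isMaximal
  have e1 : p.asIdeal.ramificationIdx' (ovp p q).asIdeal = q.1.ramificationIdx A := by
    exact Ideal.ramificationIdx'_eq_ramificationIdx _ _ p.ne_bot
  have e2 := HeightOneSpectrum.valuation_liesOver L p (ovp p q) (algebraMap A k b)
  rw [← IsScalarTower.algebraMap_apply A k L, e1, pl_val_unif p b h1 h2] at e2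
  rw [← e2, ← WithZero.exp_nsmul]
  congr 1
  simp

/-- if `F` has a root in the residue field, the residue degree is divisible by `m` -/
theorem dvd_inertia (p : HeightOneSpectrum A) (m : ℕ) (F : A[X]) [Finite (A ⧸ p.asIdeal)]
    (hcop : ∀ n : ℕ, ¬ m ∣ n → IsCoprime (X ^ (Nat.card (A ⧸ p.asIdeal) ^ n) - X)
      (F.map (Ideal.Quotient.mk p.asIdeal)))
    (q : p.asIdeal.primesOver B) (x : L) (hx : (ovp p q).valuation L x ≤ 1)
    (hF : (ovp p q).valuation L (aeval x F) < 1) : m ∣ q.1.inertiaDeg A := by
  classical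
  set w := ovp p q with hw
  have hmax : p.asIdeal.IsMaximal := p.isMaximal
  have hmaxw : w.asIdeal.IsMaximal := w.isMaximal
  let _ : Field (A ⧸ p.asIdeal) := Ideal.Quotient.field _
  let _ : Field (B ⧸ w.asIdeal) := Ideal.Quotient.field _
  obtain ⟨y, hy⟩ := w.exists_valuation_sub_lt_of_integer hx 1
  rw [Units.val_one] at hy
  -- the value at `y`
  have hmem : aeval y F ∈ w.asIdeal := by
    rw [← w.valuation_lt_one_iff_mem (K := L)]
    set V := w.valuation L with hV
    let φ : B →+* V.valuationSubring :=
      { toFun := fun z => ⟨algebraMap B L z, w.valuation_le_one z⟩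
        map_one' := Subtype.ext (map_one _)
        map_mul' := fun a b => Subtype.ext (map_mul _ _ _)
        map_zero' := Subtype.ext (map_zero _)
        map_add' := fun a b => Subtype.ext (map_add _ _ _) }
    set G := F.map (φ.comp (algebraMap A B)) with hG
    set X' : V.valuationSubring := ⟨x, hx⟩ with hX'
    have hsub : V.valuationSubring.subtype.comp (φ.comp (algebraMap A B)) = algebraMap A L := by
      ext z
      change algebraMap B L (algebraMap A B z) = _
      rw [← IsScalarTower.algebraMap_apply]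
    have h1 : ∀ z : V.valuationSubring, ((G.eval z : V.valuationSubring) : L) =
        aeval (z : L) F := by
      intro z
      change V.valuationSubring.subtype (G.eval z) = _
      rw [← Polynomial.eval_map_apply, hG, Polynomial.map_map, hsub, eval_map_algebraMap]
      rfl
    have h2 : algebraMap B L (aeval y F) = ((G.eval (φ y) : V.valuationSubring) : L) := by
      rw [h1]
      change _ = aeval (algebraMap B L y) F
      rw [aeval_algebraMap_apply]
    obtain ⟨t, ht⟩ := Polynomial.sub_dvd_eval_sub (φ y) X' G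
    have h3 : G.eval (φ y) = G.eval X' + (φ y - X') * t := by rw [← ht]; ring
    have h5 : V (algebraMap B L (aeval y F)) < 1 := by
      rw [h2, h3]
      push_cast
      refine (Valuation.map_add V _ _).trans_lt (max_lt ?_ ?_)
      · rw [h1]
        exact hF
      · rw [map_mul]
        have h4 : V ((φ y : L) - (X' : L)) < 1 := hy
        calc V ((φ y : L) - (X' : L)) * V (t : L) ≤ V ((φ y : L) - (X' : L)) * 1 :=
              mul_le_mul_right t.2 _
          _ = V ((φ y : L) - (X' : L)) := mul_one _
          _ < 1 := h4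
    exact h5
  -- the root in the residue field
  set z : B ⧸ w.asIdeal := Ideal.Quotient.mk _ y with hz
  have hroot : aeval z (F.map (Ideal.Quotient.mk p.asIdeal)) = 0 := by
    have h1 : (Ideal.Quotient.mk w.asIdeal) (aeval y F) = 0 := Ideal.Quotient.eq_zero_iff_mem.2 hmem
    rw [aeval_def, eval₂_map]
    rw [aeval_def, hom_eval₂] at h1
    exact h1
  have hf : q.1.inertiaDeg A = finrank (A ⧸ p.asIdeal) (B ⧸ w.asIdeal) :=
    Ideal.inertiaDeg_eq_of_isMaximal p.asIdeal w.asIdeal
  have hfd : Module.Finite (A ⧸ p.asIdeal) (B ⧸ w.asIdeal) := inferInstance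
  have hfinB : Finite (B ⧸ w.asIdeal) := Module.finite_of_finite (A ⧸ p.asIdeal)
  by_contra hm
  obtain ⟨r, s, hrs⟩ := hcop _ hm
  have h1 := congrArg (aeval z) hrs
  rw [map_add, map_mul, map_mul, hroot, mul_zero, add_zero, map_sub, map_pow, aeval_X, map_one] at h1
  have h2 : z ^ (Nat.card (A ⧸ p.asIdeal) ^ q.1.inertiaDeg A) = z := by
    have h3 : Nat.card (A ⧸ p.asIdeal) ^ q.1.inertiaDeg A = Nat.card (B ⧸ w.asIdeal) := by
      rw [hf]
      exact (Module.natCard_eq_pow_finrank (K := A ⧸ p.asIdeal) (V := B ⧸ w.asIdeal)).symm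
    rw [h3]
    have := Fintype.ofFinite (B ⧸ w.asIdeal)
    rw [Nat.card_eq_fintype_card]
    exact FiniteField.pow_card z
  rw [h2, sub_self, mul_zero] at h1
  exact zero_ne_one h1

/-- the value of an integral polynomial with unit leading coefficient at a non integral element -/
lemma pl_val_eval {Γ : Type v} [LinearOrderedCommGroupWithZero Γ]
    (V : Valuation L Γ) (F : L[X]) (hF : ∀ i, V (F.coeff i) ≤ 1) (hl : V F.leadingCoeff = 1) (x : L)
    (hx : 1 < V x) : V (F.eval x) = V x ^ F.natDegree := by
  have hx0 : V x ≠ 0 := (zero_lt_one.trans hx).ne'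
  rw [eval_eq_sum_range, Finset.sum_range_succ]
  have h1 : V (F.coeff F.natDegree * x ^ F.natDegree) = V x ^ F.natDegree := by
    rw [map_mul, map_pow]
    have : V (F.coeff F.natDegree) = 1 := hl
    rw [this, one_mul]
  have h2 : V (∑ i ∈ Finset.range F.natDegree, F.coeff i * x ^ i) <
      V (F.coeff F.natDegree * x ^ F.natDegree) := by
    rw [h1]
    refine Valuation.map_sum_lt V (pow_ne_zero _ hx0) fun i hi => ?_
    rw [Finset.mem_range] at hi
    rw [map_mul, map_pow]
    calc V (F.coeff i) * V x ^ i ≤ 1 * V x ^ i := mul_le_mul_left (hF i) _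
      _ = V x ^ i := one_mul _
      _ < V x ^ F.natDegree := pow_lt_pow_right₀ hx hi
  rw [Valuation.map_add_eq_of_lt_right V h2, h1]

variable (k B) in
include k B in
/-- the local theorem -/
theorem local_dvd (p : HeightOneSpectrum A) (m : ℕ) (F : A[X]) [Finite (A ⧸ p.asIdeal)]
    (hlc : F.leadingCoeff ∉ p.asIdeal)
    (hcop : ∀ n : ℕ, ¬ m ∣ n → IsCoprime (X ^ (Nat.card (A ⧸ p.asIdeal) ^ n) - X)
      (F.map (Ideal.Quotient.mk p.asIdeal)))
    (hd : m ∣ F.natDegree) (b : A) (hb : b ∈ p.asIdeal) (hb2 : b ∉ p.asIdeal ^ 2)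
    (n : ℕ) (hn0 : 0 < n) (hn : m ∣ n)
    (h : (∃ x y : L, algebraMap A L b * y ^ n = aeval x F) ∨
      ∃ r : L, algebraMap A L b * r ^ Nat.gcd n F.natDegree = algebraMap A L F.leadingCoeff) :
    m ∣ finrank k L := by
  classical
  by_contra hm
  obtain ⟨q, hq⟩ := exists_place (B := B) k L p m hm
  set V := (ovp p q).valuation L with hV
  have hVb := pl_val (L := L) k p q b hb hb2
  rw [← hV] at hVb
  have he : ¬ m ∣ q.1.ramificationIdx A := fun h' => hq (h'.mul_right _)
  have hf : ¬ m ∣ q.1.inertiaDeg A := fun h' => hq (h'.mul_left _)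
  have hinj : Function.Injective (algebraMap A L) := by
    rw [IsScalarTower.algebraMap_eq A B L]
    exact (FaithfulSMul.algebraMap_injective B L).comp (FaithfulSMul.algebraMap_injective A B)
  have hcoe : ∀ i, V ((F.map (algebraMap A L)).coeff i) ≤ 1 := by
    intro i
    rw [coeff_map, IsScalarTower.algebraMap_apply A B L]
    exact (ovp p q).valuation_le_one _
  have hlcV : V (algebraMap A L F.leadingCoeff) = 1 := pl_val_eq_one p q _ hlc
  have hlog : ∀ z : L, z ≠ 0 → V z = WithZero.exp (WithZero.log (V z)) := fun z hz =>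
    (WithZero.exp_log ((Valuation.ne_zero_iff V).2 hz)).symm
  rcases h with ⟨x, y, hxy⟩ | ⟨r, hr⟩
  · by_cases hx : V x ≤ 1
    · by_cases hF : V (aeval x F) < 1
      · exact hf (dvd_inertia p m F hcop q x hx hF)
      · have h1 : V (aeval x F) = 1 := by
          refine le_antisymm ?_ (not_lt.1 hF)
          rw [aeval_def, eval₂_eq_eval_map, eval_eq_sum_range]
          refine Valuation.map_sum_le V fun i _ => ?_
          rw [map_mul, map_pow]
          exact mul_le_one' (hcoe i) (pow_le_one₀ zero_le hx)
        have hy : y ≠ 0 := by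
          rintro rfl
          rw [← hxy, zero_pow hn0.ne', mul_zero, map_zero] at h1
          exact zero_ne_one h1
        rw [← hxy, map_mul, map_pow, hVb, hlog y hy, ← WithZero.exp_nsmul, ← WithZero.exp_add,
          ← WithZero.exp_zero, WithZero.exp_inj, nsmul_eq_mul] at h1
        apply he
        have h2 : (m : ℤ) ∣ (n : ℤ) := by exact_mod_cast hn
        have h3 : (m : ℤ) ∣ (q.1.ramificationIdx A : ℤ) := by
          have h4 : (q.1.ramificationIdx A : ℤ) = n * WithZero.log (V y) := by linarith
          rw [h4]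
          exact h2.mul_right _
        exact_mod_cast h3
    · have h1 : V (aeval x F) = V x ^ F.natDegree := by
        have h2 := pl_val_eval V (F.map (algebraMap A L)) hcoe
          (by rw [leadingCoeff_map_of_injective hinj]; exact hlcV) x (not_le.1 hx)
        rwa [eval_map_algebraMap, natDegree_map_eq_of_injective hinj] at h2
      have hx0 : x ≠ 0 := by
        rintro rfl
        rw [map_zero] at hx
        exact hx zero_le
      have hy : y ≠ 0 := by
        rintro rfl
        rw [← hxy, zero_pow hn0.ne', mul_zero, map_zero, eq_comm] at h1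
        exact pow_ne_zero _ ((Valuation.ne_zero_iff V).2 hx0) h1
      rw [← hxy, map_mul, map_pow, hVb, hlog y hy, hlog x hx0, ← WithZero.exp_nsmul,
        ← WithZero.exp_nsmul, ← WithZero.exp_add, WithZero.exp_inj, nsmul_eq_mul,
        nsmul_eq_mul] at h1
      apply he
      have h2 : (m : ℤ) ∣ (n : ℤ) := by exact_mod_cast hn
      have h2' : (m : ℤ) ∣ (F.natDegree : ℤ) := by exact_mod_cast hd
      have h3 : (m : ℤ) ∣ (q.1.ramificationIdx A : ℤ) := by
        have h4 : (q.1.ramificationIdx A : ℤ) =
          n * WithZero.log (V y) - F.natDegree * WithZero.log (V x) := by linarith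
        rw [h4]
        exact dvd_sub (h2.mul_right _) (h2'.mul_right _)
      exact_mod_cast h3
  · have hg0 : Nat.gcd n F.natDegree ≠ 0 := (Nat.gcd_pos_of_pos_left _ hn0).ne'
    have h1 : V (algebraMap A L b * r ^ Nat.gcd n F.natDegree) = 1 := by rw [hr, hlcV]
    have hr0 : r ≠ 0 := by
      rintro rfl
      rw [zero_pow hg0, mul_zero, map_zero] at h1
      exact zero_ne_one h1
    rw [map_mul, map_pow, hVb, hlog r hr0, ← WithZero.exp_nsmul, ← WithZero.exp_add,
      ← WithZero.exp_zero, WithZero.exp_inj, nsmul_eq_mul] at h1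
    apply he
    have h2 : (m : ℤ) ∣ ((Nat.gcd n F.natDegree : ℕ) : ℤ) := by
      exact_mod_cast Nat.dvd_gcd hn hd
    have h3 : (m : ℤ) ∣ (q.1.ramificationIdx A : ℤ) := by
      have h4 : (q.1.ramificationIdx A : ℤ) =
        ((Nat.gcd n F.natDegree : ℕ) : ℤ) * WithZero.log (V r) := by linarith
      rw [h4]
      exact h2.mul_right _
    exact_mod_cast h3

end

end Pool.Agent.TH728.ZC
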