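import Pool.Agent.TH728.ZC.Loc

/-!
# Valuations of resultants with a polynomial whose reduction is irreducible
-/

set_option autoImplicit false

namespace Pool.Agent.TH728.ZC

open Polynomial Module

universe u w

variable {k : Type u} {Γ : Type w} [Field k] [LinearOrderedCommGroupWithZero Γ] (V : Valuation k Γ)

/-- scaling a polynomial so that it is integral with non-zero reduction -/
lemma exists_scale (r : k[X]) (hr : r ≠ 0) :
    ∃ (c : k) (r1 : V.valuationSubring[X]), c ≠ 0 ∧
      r = C c * r1.map (algebraMap V.valuationSubring k) ∧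
      r1.map (IsLocalRing.residue V.valuationSubring) ≠ 0 ∧ r1.natDegree ≤ r.natDegree := by
  classical
  obtain ⟨i, hi, hmax⟩ := Finset.exists_max_image r.support (fun j => V (r.coeff j))
    (by rwa [Finset.nonempty_iff_ne_empty, Ne, Polynomial.support_eq_empty])
  set c := r.coeff i with hc
  have hc0 : c ≠ 0 := mem_support_iff.1 hi
  have hVc : V c ≠ 0 := (Valuation.ne_zero_iff V).2 hc0
  have hle : ∀ j, V (c⁻¹ * r.coeff j) ≤ 1 := by
    intro j
    rw [map_mul, map_inv₀]
    by_cases hj : j ∈ r.support
    · have := hmax j hj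
      rw [inv_mul_le_iff₀ (zero_lt_iff.2 hVc), mul_one]
      exact this
    · rw [notMem_support_iff.1 hj, map_zero, mul_zero]
      exact zero_le_one
  have hlift : C c⁻¹ * r ∈ Polynomial.lifts (algebraMap V.valuationSubring k) := by
    rw [Polynomial.lifts_iff_coeff_lifts]
    intro j
    rw [coeff_C_mul]
    exact ⟨⟨c⁻¹ * r.coeff j, hle j⟩, rfl⟩
  obtain ⟨r1, hr1⟩ := (Polynomial.mem_lifts _).1 hlift
  refine ⟨c, r1, hc0, ?_, ?_, ?_⟩
  · rw [hr1, ← mul_assoc, ← C_mul, mul_inv_cancel₀ hc0, C_1, one_mul]
  · intro h0
    have h1 : (r1.map (IsLocalRing.residue V.valuationSubring)).coeff i = 0 := by rw [h0, coeff_zero]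
    rw [coeff_map, IsLocalRing.residue_eq_zero_iff] at h1
    have h2 : ((r1.coeff i : V.valuationSubring) : k) = 1 := by
      have := congrArg (fun q => q.coeff i) hr1
      simp only [coeff_map, coeff_C_mul] at this
      change algebraMap V.valuationSubring k (r1.coeff i) = 1
      rw [this, ← hc, inv_mul_cancel₀ hc0]
    have h3 : r1.coeff i = 1 := Subtype.ext h2
    rw [h3] at h1
    exact (IsLocalRing.maximalIdeal.isMaximal _).ne_top ((Ideal.eq_top_iff_one _).2 h1)
  · have h1 : (r1.map (algebraMap V.valuationSubring k)).natDegree = r1.natDegree :=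
      natDegree_map_eq_of_injective Subtype.val_injective r1
    rw [← h1, hr1, natDegree_C_mul (inv_ne_zero hc0)]

/-- the monic case -/
lemma val_res_monic (f : V.valuationSubring[X]) (hf : f.Monic)
    (hirr : Irreducible (f.map (IsLocalRing.residue V.valuationSubring))) (g : k[X])
    (h0 : resultant (f.map (algebraMap V.valuationSubring k)) g f.natDegree g.natDegree ≠ 0) :
    ∃ c : k, c ≠ 0 ∧
      V (resultant (f.map (algebraMap V.valuationSubring k)) g f.natDegree g.natDegree) =
        V c ^ f.natDegree := by
  classical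
  set F := f.map (algebraMap V.valuationSubring k) with hF
  have hFm : F.Monic := hf.map _
  set d := f.natDegree with hd
  have hFd : F.natDegree = d := hf.natDegree_map _
  set n := g.natDegree with hn
  have hdpos : 0 < d := by
    have h1 := hirr.natDegree_pos
    rwa [hf.natDegree_map] at h1
  have e1 : resultant F g d (n + d) = resultant F g d n := by
    rw [resultant_add_right_deg F g d n d le_rfl, ← hFd, coeff_natDegree, hFm.leadingCoeff, one_pow,
      one_mul]
  have e2 : resultant F g d (n + d) = resultant F (g %ₘ F) d (n + d) := by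
    conv_lhs => rw [← modByMonic_add_div g F]
    refine resultant_add_mul_right F (g %ₘ F) (g /ₘ F) d (n + d) ?_ hFd.le
    rw [natDegree_divByMonic g hFm]
    omega
  rw [← e1, e2] at h0 ⊢
  set r := g %ₘ F with hr
  have hr0 : r ≠ 0 := by
    intro h
    rw [h, resultant_zero_right, zero_pow hdpos.ne', zero_mul] at h0
    exact h0 rfl
  have hF1 : F ≠ 1 := by
    intro h
    rw [h, natDegree_one] at hFd
    omega
  have hrd : r.natDegree < d := by
    rw [← hFd]
    exact natDegree_modByMonic_lt g hFm hF1
  obtain ⟨c, r1, hc, hr1, hr2, hr3⟩ := exists_scale V r hr0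
  refine ⟨c, hc, ?_⟩
  have e3 : resultant F r d (n + d) = c ^ d *
      algebraMap V.valuationSubring k (resultant f r1 d (n + d)) := by
    conv_lhs => rw [hr1]
    rw [resultant_C_mul_right, hF, resultant_map_map]
  have hunit : IsUnit (resultant f r1 d (n + d)) := by
    apply isUnit_of_map_unit (IsLocalRing.residue V.valuationSubring)
    rw [← resultant_map_map]
    set fb := f.map (IsLocalRing.residue V.valuationSubring) with hfb
    set rb := r1.map (IsLocalRing.residue V.valuationSubring) with hrb
    have hfbm : fb.Monic := hf.map _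
    have hfbd : fb.natDegree = d := hf.natDegree_map _
    have hrbd : rb.natDegree < d := (natDegree_map_le.trans hr3).trans_lt hrd
    have hcop : IsCoprime fb rb := by
      refine (hirr.coprime_iff_not_dvd).2 fun hdvd => ?_
      have := natDegree_le_of_dvd hdvd hr2
      omega
    have h4 := (isUnit_resultant_iff_isCoprime hfbm).2 hcop
    have h5 : n + d = rb.natDegree + (n + d - rb.natDegree) := by omega
    rw [h5, resultant_add_right_deg fb rb d rb.natDegree _ le_rfl, ← hfbd, coeff_natDegree,
      hfbm.leadingCoeff, one_pow, one_mul]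
    exact h4
  rw [e3, map_mul, map_pow]
  have h6 : V (algebraMap V.valuationSubring k (resultant f r1 d (n + d))) = 1 :=
    (Valuation.Integers.isUnit_iff_valuation_eq_one
      (Valuation.valuationSubring.integers V)).1 hunit
  rw [h6, mul_one]

/-- the general case -/
lemma val_res (f : V.valuationSubring[X]) (hf : IsUnit f.leadingCoeff)
    (hirr : Irreducible (f.map (IsLocalRing.residue V.valuationSubring))) (g : k[X])
    (h0 : resultant g (f.map (algebraMap V.valuationSubring k)) ≠ 0) :
    ∃ c : k, c ≠ 0 ∧
      V (resultant g (f.map (algebraMap V.valuationSubring k))) = V c ^ f.natDegree := by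
  classical
  obtain ⟨u, hu⟩ := hf
  set f1 : V.valuationSubring[X] := C ((u⁻¹ : (V.valuationSubring)ˣ) : V.valuationSubring) * f
    with hf1
  have hmon : f1.Monic := by
    rw [hf1, Monic, leadingCoeff_mul, leadingCoeff_C, ← hu, Units.inv_mul]
  have hf10 : f = C (u : V.valuationSubring) * f1 := by
    rw [hf1, ← mul_assoc, ← C_mul, Units.mul_inv, C_1, one_mul]
  have hdeg : f.natDegree = f1.natDegree := by
    rw [hf1]
    exact (natDegree_C_mul (Units.ne_zero _)).symm
  have hirr1 : Irreducible (f1.map (IsLocalRing.residue V.valuationSubring)) := by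
    rw [hf1, Polynomial.map_mul, map_C]
    exact (irreducible_isUnit_mul (isUnit_C.2 ((u⁻¹).isUnit.map _))).2 hirr
  have hinj : Function.Injective (algebraMap V.valuationSubring k) := Subtype.val_injective
  have hVu : V (algebraMap V.valuationSubring k u) = 1 :=
    (Valuation.Integers.isUnit_iff_valuation_eq_one
      (Valuation.valuationSubring.integers V)).1 u.isUnit
  have e1 : resultant g (f.map (algebraMap V.valuationSubring k)) =
      (-1) ^ (g.natDegree * f.natDegree) * ((algebraMap V.valuationSubring k u) ^ g.natDegree *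
        resultant (f1.map (algebraMap V.valuationSubring k)) g f1.natDegree g.natDegree) := by
    rw [resultant_comm, natDegree_map_eq_of_injective hinj]
    congr 1
    conv_lhs => rw [hf10, Polynomial.map_mul, map_C, resultant_C_mul_left]
    rw [← hf10, hdeg]
  rw [e1] at h0 ⊢
  have h1 := right_ne_zero_of_mul (right_ne_zero_of_mul h0)
  obtain ⟨c, hc, h2⟩ := val_res_monic V f1 hmon hirr1 g h1
  refine ⟨c, hc, ?_⟩
  rw [map_mul, map_mul, map_pow, map_pow, Valuation.map_neg, map_one, one_pow, one_mul, hVu, one_pow,
    one_mul, h2, hdeg]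

/-- `f` is irreducible over `k` -/
lemma irr_field (f : V.valuationSubring[X]) (hf : IsUnit f.leadingCoeff)
    (hirr : Irreducible (f.map (IsLocalRing.residue V.valuationSubring))) :
    Irreducible (f.map (algebraMap V.valuationSubring k)) := by
  obtain ⟨u, hu⟩ := hf
  have hmon : (C ((u⁻¹ : (V.valuationSubring)ˣ) : V.valuationSubring) * f).Monic := by
    rw [Monic, leadingCoeff_mul, leadingCoeff_C, ← hu, Units.inv_mul]
  have h4 : Irreducible (C ((u⁻¹ : (V.valuationSubring)ˣ) : V.valuationSubring) * f) := by
    refine hmon.irreducible_of_irreducible_map (IsLocalRing.residue V.valuationSubring) _ ?_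
    rw [Polynomial.map_mul, map_C]
    exact (irreducible_isUnit_mul (isUnit_C.2 ((u⁻¹).isUnit.map _))).2 hirr
  have h5 := (hmon.irreducible_iff_irreducible_map_fraction_map (K := k)).1 h4
  rw [Polynomial.map_mul, map_C] at h5
  exact (irreducible_isUnit_mul (isUnit_C.2 ((u⁻¹).isUnit.map _))).1 h5

end Pool.Agent.TH728.ZC
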